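import Mathlib

/-!
# Common factors of `1 + κ X ^ e` and polynomials with few terms
-/

set_option autoImplicit false

namespace Pool.Agent.H556.GD

open MvPolynomial

/-- `r` residues modulo `e` can be shifted away from a gap of length `e / r` -/
lemma gap {e r : ℕ} (he : 1 ≤ e) (ρ : Fin r → ℕ) :
    ∃ s : ℕ, ∀ i, r * ((ρ i + s) % e) + e ≤ r * e := by
  by_contra! h
  choose i hi using h
  have hr : 0 < r := (i 0).pos
  have hcard : (Finset.range e).card ≤
      ((Finset.univ : Finset (Fin r)) ×ˢ Finset.Icc 1 ((e - 1) / r)).card := by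
    apply Finset.card_le_card_of_injOn (fun s => (i s, e - (ρ (i s) + s) % e))
    · intro s hs
      have h1 := hi s
      have h2 : (ρ (i s) + s) % e < e := Nat.mod_lt _ (by omega)
      simp only [Finset.coe_product, Finset.coe_univ, Finset.coe_Icc, Set.mem_prod, Set.mem_univ,
        Set.mem_Icc, true_and]
      refine ⟨by omega, ?_⟩
      rw [Nat.le_div_iff_mul_le hr]
      set t := (ρ (i s) + s) % e with ht
      obtain ⟨d, hd⟩ : ∃ d, e = t + d := ⟨e - t, by omega⟩
      have h3 : e - t = d := by omega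
      rw [h3]
      have h4 : r * e = r * t + r * d := by
        conv_lhs => rw [hd]
        ring
      rw [mul_comm d r]
      omega
    · intro s hs s' hs' heq
      simp only [Prod.mk.injEq] at heq
      obtain ⟨h1, h2⟩ := heq
      rw [← h1] at h2
      have h3 : (ρ (i s) + s) % e < e := Nat.mod_lt _ (by omega)
      have h4 : (ρ (i s) + s') % e < e := Nat.mod_lt _ (by omega)
      have h5 : (ρ (i s) + s) % e = (ρ (i s) + s') % e := by omega
      have h6 : s ≡ s' [MOD e] := Nat.ModEq.add_left_cancel' (ρ (i s)) h5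
      have hs1 : s < e := by simpa using hs
      have hs2 : s' < e := by simpa using hs'
      exact Nat.ModEq.eq_of_lt_of_lt h6 hs1 hs2
  rw [Finset.card_range, Finset.card_product, Finset.card_univ, Fintype.card_fin,
    Nat.card_Icc] at hcard
  have h1 : r * ((e - 1) / r) ≤ e - 1 := Nat.mul_div_le _ _
  rw [Nat.add_sub_cancel] at hcard
  have h2 := hcard.trans h1
  omega

section

variable {R : Type*} [Field R] {k : ℕ}

lemma degreeOf_f (j : Fin k) (e : ℕ) (κ : R) {i : Fin k} (hi : i ≠ j) :
    degreeOf i (1 + C κ * X j ^ e : MvPolynomial (Fin k) R) = 0 := by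
  have h1 : degreeOf i (1 : MvPolynomial (Fin k) R) = 0 := by
    have := degreeOf_C (R := R) (1 : R) i
    rwa [C_1] at this
  have h2 : degreeOf i (X j ^ e : MvPolynomial (Fin k) R) = 0 := by
    have h3 := degreeOf_pow_le i (X j : MvPolynomial (Fin k) R) e
    have h4 : degreeOf i (X j : MvPolynomial (Fin k) R) = 0 := by
      classical
      rw [degreeOf_X, if_neg hi]
    rw [h4, mul_zero] at h3
    omega
  have h3 := degreeOf_add_le i (1 : MvPolynomial (Fin k) R) (C κ * X j ^ e)
  have h4 := degreeOf_C_mul_le (X j ^ e : MvPolynomial (Fin k) R) i κ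
  rw [h1, h2] at *
  omega

/-- **common factors of a binomial and a polynomial with `r` terms** -/
theorem gcd_factor (j : Fin k) {e : ℕ} (he : 1 ≤ e) {κ : R} (hκ : κ ≠ 0) {r : ℕ}
    (E : Fin r → (Fin k →₀ ℕ)) (c : Fin r → R) (f g : MvPolynomial (Fin k) R)
    (hf : f = 1 + C κ * X j ^ e) (hg : g = ∑ i, monomial (E i) (c i)) (hnd : ¬ f ∣ g) :
    ∃ h f1 g1 : MvPolynomial (Fin k) R, f = h * f1 ∧ g = h * g1 ∧ IsRelPrime f1 g1 ∧
      (∀ i, i ≠ j → h.degreeOf i = 0) ∧ r * h.degreeOf j + e ≤ r * e := by
  classical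
  letI : GCDMonoid (MvPolynomial (Fin k) R) := UniqueFactorizationMonoid.toGCDMonoid _
  obtain ⟨f1, g1, hf1, hg1, hu⟩ := extract_gcd f g
  have hr : 1 ≤ r := by
    by_contra h0
    have h1 : r = 0 := by omega
    subst h1
    apply hnd
    rw [hg]
    simp
  have hg0 : g ≠ 0 := fun h => hnd (by rw [h]; exact dvd_zero _)
  have hf0 : f ≠ 0 := by
    intro h0
    have h1 := congrArg (eval (0 : Fin k → R)) (hf.symm.trans h0)
    simp [show e ≠ 0 by omega] at h1
  set h : MvPolynomial (Fin k) R := gcd f g with hh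
  have hh0 : h ≠ 0 := by
    intro h0
    rw [h0, zero_mul] at hf1
    exact hf0 hf1
  have hf10 : f1 ≠ 0 := by
    rintro rfl
    rw [mul_zero] at hf1
    exact hf0 hf1
  refine ⟨h, f1, g1, hf1, hg1, (gcd_isUnit_iff_isRelPrime).1 hu, ?_, ?_⟩
  · intro i hi
    have h1 := degreeOf_mul_eq (n := i) hh0 hf10
    rw [← hf1, hf, degreeOf_f j e κ hi] at h1
    omega
  · obtain ⟨s, hs⟩ := gap he (fun i => E i j)
    -- reduction modulo `f`
    set q : Fin r → ℕ := fun i => (E i j + s) / e with hq
    set E' : Fin r → (Fin k →₀ ℕ) := fun i => (E i).update j ((E i j + s) % e) with hE'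
    set g' : MvPolynomial (Fin k) R := ∑ i, monomial (E' i) (c i * (-κ⁻¹) ^ (q i)) with hg'
    have hXe : f ∣ (X j ^ e - C (-κ⁻¹) : MvPolynomial (Fin k) R) := by
      refine ⟨C κ⁻¹, ?_⟩
      rw [hf, add_mul, one_mul, mul_right_comm, ← C_mul, mul_inv_cancel₀ hκ, C_1, one_mul, C_neg]
      ring
    have hstep : ∀ i, f ∣ X j ^ s * monomial (E i) (c i) -
        monomial (E' i) (c i * (-κ⁻¹) ^ (q i)) := by
      intro i
      have h1 : (X j ^ s * monomial (E i) (c i) : MvPolynomial (Fin k) R) =
          (X j ^ e) ^ (q i) * monomial (E' i) (c i) := by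
        rw [← pow_mul, X_pow_eq_monomial, X_pow_eq_monomial, monomial_mul, monomial_mul]
        congr 2
        ext l
        rw [Finsupp.add_apply, Finsupp.add_apply, hE']
        simp only []
        by_cases hl : l = j
        · subst hl
          simp only [Finsupp.single_eq_same, Finsupp.update_apply, if_true]
          have := Nat.div_add_mod (E i l + s) e
          rw [hq]
          simp only []
          omega
        · rw [Finsupp.update_apply, if_neg hl, Finsupp.single_eq_of_ne (by tauto),
            Finsupp.single_eq_of_ne (by tauto)]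
      have h2 : (monomial (E' i) (c i * (-κ⁻¹) ^ (q i)) : MvPolynomial (Fin k) R) =
          (C (-κ⁻¹)) ^ (q i) * monomial (E' i) (c i) := by
        rw [← C_pow, C_mul_monomial, mul_comm]
      rw [h1, h2, ← sub_mul]
      exact (hXe.trans (sub_dvd_pow_sub_pow _ _ _)).mul_right _
    have hall : f ∣ X j ^ s * g - g' := by
      rw [hg, hg', Finset.mul_sum, ← Finset.sum_sub_distrib]
      exact Finset.dvd_sum fun i _ => hstep i
    have hcop : IsCoprime f (X j ^ s) := by
      apply IsCoprime.pow_right
      refine ⟨1, -(C κ * X j ^ (e - 1)), ?_⟩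
      rw [hf]
      have h1 : (X j ^ e : MvPolynomial (Fin k) R) = X j ^ (e - 1) * X j := by
        rw [← pow_succ]
        congr 1
        omega
      rw [h1]
      ring
    have hg'0 : g' ≠ 0 := by
      intro h0
      rw [h0, sub_zero] at hall
      exact hnd (hcop.dvd_of_dvd_mul_left hall)
    have hhg' : h ∣ g' := by
      have h1 : h ∣ f := ⟨f1, hf1⟩
      have h2 : h ∣ g := ⟨g1, hg1⟩
      have h3 := dvd_sub (h2.mul_left (X j ^ s)) (h1.trans hall)
      rwa [sub_sub_cancel] at h3
    obtain ⟨w, hw⟩ := hhg'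
    have hw0 : w ≠ 0 := by
      rintro rfl
      rw [mul_zero] at hw
      exact hg'0 hw
    have h1 := degreeOf_mul_eq (n := j) hh0 hw0
    rw [← hw] at h1
    have hre : e ≤ r * e := Nat.le_mul_of_pos_left _ (by omega)
    have h2 : degreeOf j g' ≤ (r * e - e) / r := by
      rw [degreeOf_le_iff]
      intro m hm
      have h3 : ∃ i, m = E' i := by
        rw [mem_support_iff, hg', coeff_sum] at hm
        obtain ⟨i, -, hi⟩ := Finset.exists_ne_zero_of_sum_ne_zero hm
        rw [coeff_monomial] at hi
        refine ⟨i, ?_⟩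
        by_contra h4
        exact hi (if_neg fun h5 => h4 h5.symm)
      obtain ⟨i, rfl⟩ := h3
      rw [Nat.le_div_iff_mul_le (by omega)]
      have h4 := hs i
      have h5 : E' i j = (E i j + s) % e := by
        rw [hE']
        simp
      rw [h5, mul_comm]
      omega
    have h3 : r * ((r * e - e) / r) ≤ r * e - e := Nat.mul_div_le _ _
    have h4 : r * degreeOf j h ≤ r * ((r * e - e) / r) := Nat.mul_le_mul_left _ (by omega)
    omega

end

end Pool.Agent.H556.GD
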