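import Mathlib
import Pool.Agent.H556.FX.Core

/-!
# Sizes of the values of polynomials in one germ
-/

set_option autoImplicit false

namespace Pool.Agent.H556.GD

open Filter Topology Pool.Agent.TH932.Germs Pool.Agent.TH551.SU Pool.Agent.Y724.Vj
open Pool.Agent.TH551.SU.SUI MvPolynomial Pool.Agent.H556.FG

/-- the height -/
noncomputable def Ht (a : ℚ) : ℝ := max |(a.num : ℝ)| (a.den : ℝ)

lemma Ht_one (a : ℚ) : 1 ≤ Ht a := by
  refine le_trans ?_ (le_max_right _ _)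
  exact_mod_cast a.den_pos

/-- germs which are `p / (q den ^ M)`, `q` negligible, `p` at most `Ht ^ M` -/
def Sz (L : ℕ → ℝ) (a : ℕ → ℚ) (M : ℕ) (x : GG) : Prop :=
  ∃ p q : ℕ → ℤ, Negl L q ∧ (∀ᶠ n in (UU : Filter ℕ), q n ≠ 0) ∧
    x = gm (fun n => (p n : ℚ) / ((q n : ℚ) * ((a n).den : ℚ) ^ M)) ∧
    ∀ ε : ℝ, 0 < ε → ∀ᶠ n in (UU : Filter ℕ),
      |(p n : ℝ)| ≤ Real.exp (ε * L n) * Ht (a n) ^ M

variable {L : ℕ → ℝ}

lemma Sz.zero (hL : Tendsto L atTop atTop) (a : ℕ → ℚ) (M : ℕ) : Sz L a M 0 := by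
  refine ⟨fun _ => 0, fun _ => 1, Negl.one hL, by simp, ?_, ?_⟩
  · rw [← gm_zero]
    congr 1
    funext n
    simp
  · intro ε hε
    refine Eventually.of_forall fun n => ?_
    have := Ht_one (a n)
    simp only [Int.cast_zero, abs_zero]
    positivity

lemma Sz.add (hL : Tendsto L atTop atTop) {a : ℕ → ℚ} {M : ℕ} {x y : GG} (hx : Sz L a M x)
    (hy : Sz L a M y) : Sz L a M (x + y) := by
  obtain ⟨p, q, hq, hq0, rfl, hp⟩ := hx
  obtain ⟨p', q', hq', hq0', rfl, hp'⟩ := hy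
  refine ⟨fun n => p n * q' n + p' n * q n, fun n => q n * q' n, hq.mul hq', ?_, ?_, ?_⟩
  · filter_upwards [hq0, hq0'] with n h1 h2 using mul_ne_zero h1 h2
  · rw [gm_add, gm_eq]
    filter_upwards [hq0, hq0'] with n h1 h2
    have h1' : (q n : ℚ) ≠ 0 := by exact_mod_cast h1
    have h2' : (q' n : ℚ) ≠ 0 := by exact_mod_cast h2
    have h3 : ((a n).den : ℚ) ≠ 0 := by exact_mod_cast (a n).den_nz
    push_cast
    field_simp
  · intro ε hε
    filter_upwards [hp (ε / 4) (by positivity), hp' (ε / 4) (by positivity),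
      hq (ε / 4) (by positivity), hq' (ε / 4) (by positivity),
      two_le_exp hL (show 0 < ε / 2 by positivity)] with n h1 h2 h3 h4 h5
    have hH := Ht_one (a n)
    have hH0 : 0 ≤ Ht (a n) ^ M := by positivity
    push_cast
    calc |(p n : ℝ) * q' n + p' n * q n| ≤ |(p n : ℝ)| * |(q' n : ℝ)| + |(p' n : ℝ)| * |(q n : ℝ)| := by
          refine (abs_add_le _ _).trans ?_
          rw [abs_mul, abs_mul]
      _ ≤ (Real.exp (ε / 4 * L n) * Ht (a n) ^ M) * Real.exp (ε / 4 * L n) +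
          (Real.exp (ε / 4 * L n) * Ht (a n) ^ M) * Real.exp (ε / 4 * L n) := by gcongr
      _ = 2 * (Real.exp (ε / 4 * L n) * Real.exp (ε / 4 * L n) * Ht (a n) ^ M) := by ring
      _ ≤ Real.exp (ε / 2 * L n) * (Real.exp (ε / 4 * L n) * Real.exp (ε / 4 * L n) *
          Ht (a n) ^ M) := by gcongr
      _ = Real.exp (ε * L n) * Ht (a n) ^ M := by
          rw [← Real.exp_add, ← mul_assoc, ← Real.exp_add]
          ring_nf

lemma Sz.term (hL : Tendsto L atTop atTop) (a : ℕ → ℚ) {M i : ℕ} (hi : i ≤ M) {κ : GG}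
    (hκ : κ ∈ KK L hL) : Sz L a M (κ * gm a ^ i) := by
  obtain ⟨m, d, hm, hd, hd0, rfl⟩ := hκ
  refine ⟨fun n => m n * (a n).num ^ i * ((a n).den : ℤ) ^ (M - i), d, hd, hd0, ?_, ?_⟩
  · rw [gm_pow, gm_mul, gm_eq]
    filter_upwards [hd0] with n h1
    have h1' : (d n : ℚ) ≠ 0 := by exact_mod_cast h1
    have h3 : ((a n).den : ℚ) ≠ 0 := by exact_mod_cast (a n).den_nz
    have h4 : ((a n).den : ℚ) ^ M = ((a n).den : ℚ) ^ (M - i) * ((a n).den : ℚ) ^ i := by
      rw [← pow_add]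
      congr 1
      omega
    have h5 : a n ^ i = ((a n).num : ℚ) ^ i / ((a n).den : ℚ) ^ i := by
      rw [← div_pow, Rat.num_div_den]
    push_cast
    rw [h4, h5]
    field_simp
  · intro ε hε
    filter_upwards [hm ε hε] with n h1
    have hH := Ht_one (a n)
    push_cast
    rw [abs_mul, abs_mul, abs_pow, abs_pow, Nat.abs_cast, mul_assoc]
    refine mul_le_mul h1 ?_ (by positivity) (Real.exp_pos _).le
    calc |((a n).num : ℝ)| ^ i * ((a n).den : ℝ) ^ (M - i) ≤ Ht (a n) ^ i * Ht (a n) ^ (M - i) := by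
          gcongr
          · exact le_max_left _ _
          · exact le_max_right _ _
      _ = _ := by rw [← pow_add]; congr 1; omega

lemma Sz.num {a : ℕ → ℚ} {M : ℕ} {α : ℕ → ℚ} (h : Sz L a M (gm α)) {ε : ℝ} (hε : 0 < ε) :
    ∀ᶠ n in (UU : Filter ℕ), |((α n).num : ℝ)| ≤ Real.exp (ε * L n) * Ht (a n) ^ M := by
  obtain ⟨p, q, hq, hq0, h1, hp⟩ := h
  filter_upwards [gm_eq.1 h1, hq0, hp ε hε] with n h2 h3 h4
  refine le_trans ?_ h4
  have h3' : (q n : ℤ) * ((a n).den : ℤ) ^ M ≠ 0 :=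
    mul_ne_zero h3 (pow_ne_zero _ (by exact_mod_cast (a n).den_nz))
  have h5 : α n = ((p n : ℤ) : ℚ) / ((q n * ((a n).den : ℤ) ^ M : ℤ) : ℚ) := by
    rw [h2]
    push_cast
    rfl
  have h6 : (α n).num ∣ p n := by
    rw [h5, ← Rat.divInt_eq_div]
    exact Rat.num_dvd _ h3'
  rcases eq_or_ne (p n) 0 with h0 | h0
  · have : α n = 0 := by rw [h5, h0]; simp
    rw [this]
    simp
  · have := Int.le_of_dvd (abs_pos.2 h0) ((abs_dvd_abs _ _).2 h6)
    exact_mod_cast this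

/-- values of polynomials which involve one variable only -/
lemma Sz.aeval (hL : Tendsto L atTop atTop) {k : ℕ} (T : Fin k → ℕ → ℚ) (j : Fin k)
    (h : MvPolynomial (Fin k) (KK L hL)) (h0 : ∀ i, i ≠ j → h.degreeOf i = 0) :
    Sz L (T j) (h.degreeOf j) (MvPolynomial.aeval (fun l => gm (T l)) h) := by
  rw [aeval_def, eval₂_eq']
  refine Finset.sum_induction _ (Sz L (T j) (h.degreeOf j)) (fun _ _ => Sz.add hL)
    (Sz.zero hL _ _) fun d hd => ?_
  have h1 : ∏ l, gm (T l) ^ (d l) = gm (T j) ^ (d j) := by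
    refine Finset.prod_eq_single j (fun l _ hl => ?_) (fun h => absurd (Finset.mem_univ _) h)
    have h2 := monomial_le_degreeOf l hd
    rw [h0 l hl] at h2
    have h3 : d l = 0 := by omega
    rw [h3, pow_zero]
  rw [h1]
  exact Sz.term hL _ (monomial_le_degreeOf j hd) (h.coeff d).2

/-- the height of a root -/
lemma root_height (hL : Tendsto L atTop atTop) {Z a : ℕ → ℚ} {κ : GG} (hκ : κ ∈ KK L hL)
    (hκ0 : κ ≠ 0) (hZ0 : ∀ n, Z n ≠ 0) {e : ℕ} (hZ : gm Z = κ * gm a ^ e) {ε : ℝ} (hε : 0 < ε) :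
    ∀ᶠ n in (UU : Filter ℕ), Ht (a n) ^ e ≤ Real.exp (ε * L n) * Ht (Z n) := by
  have h1 : κ⁻¹ ∈ KK L hL := inv_mem hκ
  obtain ⟨m, d, hm, hd, hd0, hmd⟩ := h1
  have h2 : gm (fun n => a n ^ e) = gm (fun n => Z n * ((m n : ℚ) / d n)) := by
    rw [← gm_pow, ← gm_mul, ← hmd, hZ]
    field_simp
  have hm0 : ∀ᶠ n in (UU : Filter ℕ), m n ≠ 0 := by
    have h3 : gm (fun n => (m n : ℚ) / d n) ≠ 0 := by rw [← hmd]; exact inv_ne_zero hκ0
    filter_upwards [gm_ne_zero.1 h3] with n hn h4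
    apply hn
    rw [h4]
    simp
  filter_upwards [gm_eq.1 h2, hm ε hε, hd ε hε, hd0, hm0] with n h3 h4 h5 h6 h7
  have hden : ((Z n).den : ℤ) * d n ≠ 0 := mul_ne_zero (by exact_mod_cast (Z n).den_nz) h6
  have h8 : a n ^ e = (((Z n).num * m n : ℤ) : ℚ) / (((Z n).den * d n : ℤ) : ℚ) := by
    rw [h3]
    conv_lhs => rw [← Rat.num_div_den (Z n)]
    push_cast
    rw [div_mul_div_comm]
  have h9 : (a n ^ e).num ∣ (Z n).num * m n := by
    rw [h8, ← Rat.divInt_eq_div]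
    exact Rat.num_dvd _ hden
  have h10 : ((a n ^ e).den : ℤ) ∣ (Z n).den * d n := by
    rw [h8, ← Rat.divInt_eq_div]
    exact Rat.den_dvd _ _
  have hnz : (Z n).num * m n ≠ 0 := mul_ne_zero (Rat.num_ne_zero.2 (hZ0 n)) h7
  have h11 := Int.le_of_dvd (abs_pos.2 hnz) ((abs_dvd_abs _ _).2 h9)
  have h12 := Int.le_of_dvd (abs_pos.2 hden) ((dvd_abs _ _).2 h10)
  rw [Rat.num_pow, abs_pow, abs_mul] at h11
  rw [Rat.den_pow, abs_mul] at h12
  have h11' : |((a n).num : ℝ)| ^ e ≤ |((Z n).num : ℝ)| * |(m n : ℝ)| := by exact_mod_cast h11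
  have h12' : ((a n).den : ℝ) ^ e ≤ ((Z n).den : ℝ) * |(d n : ℝ)| := by
    have h13 : (((a n).den ^ e : ℕ) : ℤ) ≤ ((Z n).den : ℤ) * |d n| := by
      simpa using h12
    exact_mod_cast h13
  have hHZ := Ht_one (Z n)
  unfold Ht
  rcases le_total |((a n).num : ℝ)| ((a n).den : ℝ) with h13 | h13
  · rw [max_eq_right h13]
    calc ((a n).den : ℝ) ^ e ≤ ((Z n).den : ℝ) * |(d n : ℝ)| := h12'
      _ ≤ max |((Z n).num : ℝ)| ((Z n).den : ℝ) * Real.exp (ε * L n) := by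
          refine mul_le_mul (le_max_right _ _) h5 (abs_nonneg _) ?_
          exact le_trans (by positivity) (le_max_right _ _)
      _ = _ := mul_comm _ _
  · rw [max_eq_left h13]
    calc |((a n).num : ℝ)| ^ e ≤ |((Z n).num : ℝ)| * |(m n : ℝ)| := h11'
      _ ≤ max |((Z n).num : ℝ)| ((Z n).den : ℝ) * Real.exp (ε * L n) := by
          refine mul_le_mul (le_max_left _ _) h4 (abs_nonneg _) ?_
          exact le_trans (by positivity) (le_max_right _ _)
      _ = _ := mul_comm _ _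

end Pool.Agent.H556.GD
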