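import Mathlib
import Pool.Agent.H556.FX.Core
import Pool.Agent.H556.GD.Gap
import Pool.Agent.H556.GD.Size

/-!
# Common divisors of `1 + Z` and short sums of `S`-units, without conditions on `Z`

A sum of `r` terms which is not divisible by `Q` has with `Q` a gcd of at most the `1 - 1 / r`-th power
of the height of `Z`, up to negligible factors.
-/

set_option autoImplicit false

namespace Pool.Agent.H556.GD

open Filter Topology Pool.Agent.TH932.Germs Pool.Agent.TH551.SU Pool.Agent.Y724.Vj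
open Pool.Agent.TH551.SU.SUI MvPolynomial Pool.Agent.H556.FG Pool.Agent.H556.FX

lemma num_mul_dvd (x y : ℚ) : (x * y).num ∣ x.num * y.num := by
  have h1 : x * y = ((x.num * y.num : ℤ) : ℚ) / ((x.den * y.den : ℤ) : ℚ) := by
    conv_lhs => rw [← Rat.num_div_den x, ← Rat.num_div_den y]
    push_cast
    rw [div_mul_div_comm]
  rw [h1, ← Rat.divInt_eq_div]
  exact Rat.num_dvd _ (mul_ne_zero (by exact_mod_cast x.den_nz) (by exact_mod_cast y.den_nz))

lemma Sg.aeval {s : ℕ} (b : Fin s → ℕ) (hb : ∀ v, (b v).Prime) (hbi : Function.Injective b)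
    {L : ℕ → ℝ} (hL : Tendsto L atTop atTop) {k : ℕ} (T : Fin k → ℕ → ℚ)
    (hT : ∀ l n, IsSU b (T l n)) (hTB : ∀ l, Bd L (gm (T l)))
    (p : MvPolynomial (Fin k) (KK L hL)) :
    Sg L (∏ v, b v) (MvPolynomial.aeval (fun l => gm (T l)) p) := by
  rw [aeval_def, eval₂_eq']
  refine Sg.sum hL _ _ fun d _ => Sg.mul (Sg.KK hL (p.coeff d).2) (Sg.prod hL _ _ fun l _ => ?_)
  exact (Sg.of_su b hb hbi hL (hT l) (hTB l)).pow hL _

theorem coreG {s : ℕ} (b : Fin s → ℕ) (hb : ∀ v, (b v).Prime) (hbi : Function.Injective b)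
    {L : ℕ → ℝ} (hL : Tendsto L atTop atTop) (Z : ℕ → ℚ) (hZsu : ∀ n, IsSU b (Z n))
    (hZ0 : ∀ n, Z n ≠ 0)
    (hZB : Bd L (gm Z)) (hZK : gm Z ∉ KK L hL)
    (Q : ℕ → ℕ) (hQ0 : ∀ n, Q n ≠ 0) (hQF : ∀ n, (Q n : ℤ) ∣ (1 + Z n).num)
    (hF0 : ∀ n, 1 + Z n ≠ 0) (hQL : ∀ n, (Q n : ℝ) ≤ Real.exp (L n))
    (hcop : ∀ n v, Nat.Coprime (Q n) (b v)) {r : ℕ} (c : Fin r → ℕ → ℤ)
    (u : Fin r → ℕ → ℚ) (hu : ∀ i n, IsSU b (u i n)) (huB : ∀ i, Bd L (gm (u i)))
    (hc : ∀ i, Negl L (c i)) (D : ℕ → ℕ) (hDF : ∀ n, D n ∣ Q n)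
    (hDG : ∀ n, (D n : ℤ) ∣ (∑ i, (c i n : ℚ) * u i n).num)
    (hNF : ∀ n, ¬ (Q n : ℤ) ∣ (∑ i, (c i n : ℚ) * u i n).num) {ε : ℝ} (hε : 0 < ε) :
    ∀ᶠ n in (UU : Filter ℕ),
      (D n : ℝ) ≤ Real.exp (ε * L n) * Ht (Z n) ^ (1 - 1 / (r : ℝ)) := by
  classical
  set β : ℕ := ∏ v, b v with hβ
  have hD0 : ∀ n, D n ≠ 0 := fun n h => by
    have := hDF n
    rw [h, zero_dvd_iff] at this
    exact hQ0 n this
  obtain ⟨k, T, j, e, κ0, x, κ, he, hT, hTB, hκ0, hκ0K, hZT, hκ, hκK, huT, hind⟩ :=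
    exists_T b hb hL u hu huB Z hZsu hZB hZK
  have hTne : ∀ l, gm (T l) ≠ 0 := fun l => gsu_ne_zero hb ⟨T l, rfl, hT l⟩
  have hκ0ne : gm κ0 ≠ 0 := gsu_ne_zero hb ⟨κ0, rfl, hκ0⟩
  have halg := alg_indep b hb hbi hL T hT hind
  -- the two polynomials
  set k0 : KK L hL := ⟨gm κ0, hκ0K⟩ with hk0
  have hcK : ∀ i, gm (fun n => (c i n : ℚ)) ∈ KK L hL := by
    intro i
    refine ⟨c i, fun _ => 1, hc i, Negl.one hL, by simp, ?_⟩
    congr 1
    funext n
    push_cast
    rw [div_one]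
  set co : Fin r → KK L hL := fun i => ⟨_, mul_mem (hcK i) (hκK i)⟩ with hco
  set h : Fin k → ℕ := fun l => ∑ i, (x i l).natAbs with hh
  set f : MvPolynomial (Fin k) (KK L hL) := 1 + C k0 * X j ^ e with hf
  set E : Fin r → (Fin k →₀ ℕ) := fun i =>
    Finsupp.equivFunOnFinite.symm (fun l => ((h l : ℤ) + x i l).toNat) with hE
  set g : MvPolynomial (Fin k) (KK L hL) := ∑ i, monomial (E i) (co i) with hg
  set TT : GG := ∏ l, gm (T l) ^ (h l) with hTT
  have hTT0 : TT ≠ 0 := Finset.prod_ne_zero_iff.2 fun l _ => pow_ne_zero _ (hTne l)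
  have hfT : aeval (fun l => gm (T l)) f = gm (fun n => 1 + Z n) := by
    rw [hf, map_add, map_one, map_mul, map_pow, aeval_X, aeval_C]
    have h1 : algebraMap (KK L hL) GG k0 = gm κ0 := rfl
    rw [h1, ← hZT, ← gm_one, gm_add]
  have hsum : gm (fun n => ∑ i, (c i n : ℚ) * u i n) =
      ∑ i, gm (fun n => (c i n : ℚ)) * gm (u i) := by
    rw [gm_sum']
    rfl
  have hgT : aeval (fun l => gm (T l)) g = TT * gm (fun n => ∑ i, (c i n : ℚ) * u i n) := by
    rw [hsum, hg, map_sum, Finset.mul_sum]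
    refine Finset.sum_congr rfl fun i _ => ?_
    rw [aeval_monomial, huT i, Finsupp.prod_fintype _ _ (fun l => pow_zero _)]
    have h1 : algebraMap (KK L hL) GG (co i) = gm (fun n => (c i n : ℚ)) * gm (κ i) := rfl
    rw [h1]
    have h2 : ∏ l, gm (T l) ^ (E i l) = TT * ∏ l, gm (T l) ^ (x i l) := by
      rw [hTT, ← Finset.prod_mul_distrib]
      refine Finset.prod_congr rfl fun l _ => ?_
      have h4 : E i l = ((h l : ℤ) + x i l).toNat := rfl
      rw [h4, ← zpow_natCast, ← zpow_natCast, ← zpow_add₀ (hTne l)]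
      congr 1
      rw [Int.toNat_of_nonneg]
      have h3 : (x i l).natAbs ≤ h l :=
        Finset.single_le_sum (f := fun i => (x i l).natAbs) (fun _ _ => Nat.zero_le _)
          (Finset.mem_univ i)
      omega
    rw [h2]
    ring
  have hD1 : ∀ n, D n ≤ Q n := fun n => Nat.le_of_dvd (Nat.pos_of_ne_zero (hQ0 n)) (hDF n)
  have hSgG : Sg L β (gm (fun n => ∑ i, (c i n : ℚ) * u i n)) := by
    rw [hsum]
    refine Sg.sum hL _ _ fun i _ => (Sg.int hL (c i)).mul ?_
    exact Sg.of_su b hb hbi hL (hu i) (huB i)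
  have hSgF : Sg L β (gm (fun n => 1 + Z n)) := by
    have h1 : gm (fun n => 1 + Z n) = ∑ i : Fin 2, (![gm (fun _ => ((1 : ℤ) : ℚ)), gm Z] i) := by
      rw [Fin.sum_univ_two]
      simp only [Matrix.cons_val_zero, Matrix.cons_val_one, Int.cast_one]
      rw [gm_add]
    rw [h1]
    refine Sg.sum hL _ _ fun i _ => ?_
    fin_cases i
    · exact Sg.int hL (fun _ => 1)
    · exact Sg.of_su b hb hbi hL hZsu hZB
  have hnd : ¬ f ∣ g := by
    rintro ⟨q, hq⟩
    have hqR := coeff_mem_of_mul ((IR β).comap (algebraMap (KK L hL) GG)) j he (κ := k0)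
      (mem_IR_su hb hκ0) q g hq.symm (by
        intro d
        rw [hg, coeff_sum]
        refine sum_mem fun i _ => ?_
        rw [coeff_monomial]
        split_ifs with h1
        · change algebraMap (KK L hL) GG (co i) ∈ IR β
          exact mul_mem (mem_IR_int β (c i)) (mem_IR_su hb (hκ i))
        · exact zero_mem _)
    have hqT : aeval (fun l => gm (T l)) q ∈ IR β := by
      rw [aeval_def, eval₂_eq']
      refine sum_mem fun d _ => mul_mem (hqR d) (prod_mem fun l _ => pow_mem (mem_IR_su hb (hT l)) _)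
    have hTTinv : TT⁻¹ ∈ IR β := by
      rw [hTT, ← Finset.prod_inv_distrib]
      refine prod_mem fun l _ => ?_
      rw [← inv_pow, gm_inv]
      exact pow_mem (mem_IR_su hb fun n => isSU_inv (hT l n)) _
    have hFne : gm (fun n => 1 + Z n) ≠ 0 := by
      rw [gm_ne_zero]
      exact Eventually.of_forall fun n => hF0 n
    have hfin : gm (fun n => ∑ i, (c i n : ℚ) * u i n) * (gm (fun n => 1 + Z n))⁻¹ ∈ IR β := by
      have h1 : gm (fun n => ∑ i, (c i n : ℚ) * u i n) * (gm (fun n => 1 + Z n))⁻¹ =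
          TT⁻¹ * aeval (fun l => gm (T l)) q := by
        rw [hq, map_mul, hfT] at hgT
        field_simp
        rw [hgT, mul_comm]
      rw [h1]
      exact mul_mem hTTinv hqT
    obtain ⟨a, ha, ha'⟩ := hfin
    rw [gm_inv, gm_mul, gm_eq] at ha
    obtain ⟨n, hn⟩ := ha.exists
    obtain ⟨k', z, hz⟩ := ha' n
    apply hNF n
    set G : ℚ := ∑ i, (c i n : ℚ) * u i n with hG
    have hFq : 1 + Z n ≠ 0 := hF0 n
    have h1 : (β : ℚ) ^ k' * G = z * (1 + Z n) := by
      rw [← hz, ← hn]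
      field_simp
    have h2 : ((β : ℤ) ^ k' * (1 + Z n).den) * G.num = (1 + Z n).num * (z * G.den) := by
      have h3 : G * G.den = G.num := Rat.mul_den_eq_num G
      have h3' : (1 + Z n) * (1 + Z n).den = (1 + Z n).num := Rat.mul_den_eq_num _
      have h4 : (((β : ℤ) ^ k' * (1 + Z n).den) * G.num : ℤ) =
          (((1 + Z n).num * (z * G.den) : ℤ) : ℚ) := by
        push_cast
        rw [← h3, ← h3']
        linear_combination ((G.den : ℚ) * (1 + Z n).den) * h1
      exact_mod_cast h4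
    have h5 : IsCoprime (Q n : ℤ) ((β : ℤ) ^ k' * (1 + Z n).den) := by
      apply IsCoprime.mul_right
      · apply IsCoprime.pow_right
        rw [Nat.isCoprime_iff_coprime, hβ]
        exact Nat.Coprime.prod_right fun v _ => hcop n v
      · have h6 : IsCoprime (1 + Z n).num ((1 + Z n).den : ℤ) := by
          rw [Int.isCoprime_iff_gcd_eq_one, Int.gcd, Int.natAbs_natCast]
          exact (1 + Z n).reduced
        exact IsCoprime.of_isCoprime_of_dvd_left h6 (hQF n)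
    exact h5.dvd_of_dvd_mul_left (h2 ▸ (hQF n).mul_right _)

  have hk0 : k0 ≠ 0 := fun h0 => hκ0ne (congrArg Subtype.val h0)
  obtain ⟨h', f1, g1, hfh, hgh, hrel, hdeg0, hdegj⟩ :=
    gcd_factor j (Nat.one_le_iff_ne_zero.2 he) hk0 E co f g hf hg hnd
  have hr : 1 ≤ r := by
    by_contra h0
    have h1 : r = 0 := by omega
    subst h1
    apply hnd
    rw [hg]
    simp
  have hf0 : f ≠ 0 := by
    intro h0
    have h1 := hfT
    rw [h0, map_zero] at h1
    exact (gm_ne_zero.2 (Eventually.of_forall fun n => hF0 n)) h1.symm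
  have hg0 : g ≠ 0 := fun h0 => hnd (by rw [h0]; exact dvd_zero _)
  have hf10 : f1 ≠ 0 := by
    rintro rfl
    rw [mul_zero] at hfh
    exact hf0 hfh
  have hg10 : g1 ≠ 0 := by
    rintro rfl
    rw [mul_zero] at hgh
    exact hg0 hgh
  -- representatives
  obtain ⟨α, hα⟩ := gm_surj (aeval (fun l => gm (T l)) h')
  obtain ⟨φ0, hφ0⟩ := gm_surj (aeval (fun l => gm (T l)) f1)
  obtain ⟨γ0, hγ0⟩ := gm_surj (TT⁻¹ * aeval (fun l => gm (T l)) g1)
  have hSz := Sz.aeval hL T j h' hdeg0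
  rw [← hα] at hSz
  have hF1 : gm (fun n => 1 + Z n) = gm (fun n => α n * φ0 n) := by
    rw [← hfT, hfh, map_mul, ← hα, ← hφ0, gm_mul]
  have hG1 : gm (fun n => ∑ i, (c i n : ℚ) * u i n) = gm (fun n => α n * γ0 n) := by
    have h1 := hgT
    rw [hgh, map_mul] at h1
    rw [← gm_mul, hα, hγ0]
    field_simp
    rw [mul_comm, ← h1]
  have hα0 : gm α ≠ 0 := by
    intro h0
    have h1 := hF1
    rw [← gm_mul, h0, zero_mul] at h1
    exact (gm_ne_zero.2 (Eventually.of_forall fun n => hF0 n)) h1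
  set D' : ℕ → ℕ := fun n => D n / Nat.gcd (D n) (α n).num.natAbs with hD'
  have hgpos : ∀ n, 0 < Nat.gcd (D n) (α n).num.natAbs := fun n =>
    Nat.gcd_pos_of_pos_left _ (Nat.pos_of_ne_zero (hD0 n))
  have hDD : ∀ n, D n = Nat.gcd (D n) (α n).num.natAbs * D' n := fun n =>
    (Nat.mul_div_cancel' (Nat.gcd_dvd_left _ _)).symm
  have hD'D : ∀ n, D' n ∣ D n := fun n => ⟨_, (hDD n).trans (mul_comm _ _)⟩
  have hD'0 : ∀ n, D' n ≠ 0 := fun n h0 => by
    have := hDD n
    rw [h0, mul_zero] at this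
    exact hD0 n this
  have hdiv : ∀ n (y : ℚ), (D n : ℤ) ∣ (α n).num * y.num → (D' n : ℤ) ∣ y.num := by
    intro n y hy
    have h1 : D n ∣ (α n).num.natAbs * y.num.natAbs := by
      rw [← Int.natAbs_mul]
      exact Int.natCast_dvd.1 hy
    have h2 : Nat.gcd (D n) (α n).num.natAbs * D' n ∣ Nat.gcd (D n) (α n).num.natAbs *
        (((α n).num.natAbs / Nat.gcd (D n) (α n).num.natAbs) * y.num.natAbs) := by
      rw [← hDD n, ← mul_assoc, Nat.mul_div_cancel' (Nat.gcd_dvd_right _ _)]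
      exact h1
    have h3 := Nat.dvd_of_mul_dvd_mul_left (hgpos n) h2
    have h4 : Nat.Coprime (D' n) ((α n).num.natAbs / Nat.gcd (D n) (α n).num.natAbs) :=
      Nat.coprime_div_gcd_div_gcd (hgpos n)
    exact Int.natCast_dvd.2 (h4.dvd_of_dvd_mul_left h3)
  have hrep : ∀ (y x : ℕ → ℚ), gm x = gm (fun n => α n * y n) → (∀ n, (D n : ℤ) ∣ (x n).num) →
      Sg L β (gm y) → Sg L β (gm (fun n => 1 / (D' n : ℚ)) * gm y) := by
    intro y x hxy hx hy
    set y' : ℕ → ℚ := fun n => if (D' n : ℤ) ∣ (y n).num then y n else 0 with hy'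
    have h1 : gm y = gm y' := by
      rw [gm_eq]
      filter_upwards [gm_eq.1 hxy] with n hn
      have h2 : (D' n : ℤ) ∣ (y n).num := by
        apply hdiv
        have h3 := hx n
        rw [hn] at h3
        exact h3.trans (num_mul_dvd _ _)
      rw [hy']
      simp only [if_pos h2]
    rw [h1]
    refine sg_div (h1 ▸ hy) D' hD'0 fun n => ?_
    rw [hy']
    simp only []
    split_ifs with h2
    · exact h2
    · simp
  have hneg := gcd_germ b hb hbi hL T hT hTB halg f1 g1 hf10 hg10 hrel D' hD'0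
    (fun n v => Nat.Coprime.coprime_dvd_left ((hD'D n).trans (hDF n)) (hcop n v)) 1
    (Eventually.of_forall fun n => by
      rw [one_mul]
      have h1 : D' n ≤ Q n := (Nat.le_of_dvd (Nat.pos_of_ne_zero (hD0 n)) (hD'D n)).trans (hD1 n)
      exact (by exact_mod_cast h1 : (D' n : ℝ) ≤ Q n).trans (hQL n))
    (by
      have h1 := hrep φ0 _ hF1 (fun n => (Int.natCast_dvd_natCast.2 (hDF n)).trans (hQF n))
        (by rw [hφ0]; exact Sg.aeval b hb hbi hL T hT hTB f1)
      rw [hφ0] at h1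
      exact h1)
    (by
      have h1 := hrep γ0 _ hG1 hDG (by
        rw [hγ0]
        refine Sg.mul ?_ (Sg.aeval b hb hbi hL T hT hTB g1)
        rw [hTT, ← Finset.prod_inv_distrib]
        refine Sg.prod hL _ _ fun l _ => ?_
        rw [← inv_pow]
        refine Sg.pow hL ?_ _
        rw [gm_inv]
        refine Sg.of_su b hb hbi hL (fun n => isSU_inv (hT l n)) ?_
        rw [← gm_inv]
        exact bd_inv (hTne l) (hTB l))
      have h2 : Sg L β TT := by
        rw [hTT]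
        refine Sg.prod hL _ _ fun l _ => ?_
        exact (Sg.of_su b hb hbi hL (hT l) (hTB l)).pow hL _
      have h3 := Sg.mul h2 h1
      rw [hγ0] at h3
      have h4 : TT * (gm (fun n => 1 / (D' n : ℚ)) * (TT⁻¹ * aeval (fun l => gm (T l)) g1)) =
          gm (fun n => 1 / (D' n : ℚ)) * aeval (fun l => gm (T l)) g1 := by
        field_simp
      rw [h4] at h3
      exact h3)
  -- the conclusion
  have hrt := root_height hL hκ0K hκ0ne hZ0 hZT (show 0 < ε / 3 by positivity)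
  filter_upwards [hneg (ε / 3) (by positivity), hSz.num (show 0 < ε / 3 by positivity), hrt,
    gm_ne_zero.1 hα0, L_nonneg hL] with n h1 h2 h3 h4 h5
  have hH1 := Ht_one (T j n)
  have hHZ := Ht_one (Z n)
  set M := h'.degreeOf j with hM
  have hDle : (D n : ℝ) ≤ |((α n).num : ℝ)| * |((D' n : ℤ) : ℝ)| := by
    have h6 : (D n : ℝ) = (Nat.gcd (D n) (α n).num.natAbs : ℝ) * (D' n : ℝ) := by
      have := hDD n
      exact_mod_cast this
    have h7 : Nat.gcd (D n) (α n).num.natAbs ≤ (α n).num.natAbs :=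
      Nat.gcd_le_right _ (Int.natAbs_pos.2 (Rat.num_ne_zero.2 h4))
    have h8 : (Nat.gcd (D n) (α n).num.natAbs : ℝ) ≤ |((α n).num : ℝ)| := by
      have h9 : ((Nat.gcd (D n) (α n).num.natAbs : ℕ) : ℝ) ≤ ((α n).num.natAbs : ℝ) := by
        exact_mod_cast h7
      rw [Nat.cast_natAbs, Int.cast_abs] at h9
      exact h9
    have h10 : |((D' n : ℤ) : ℝ)| = (D' n : ℝ) := by rw [Int.cast_natCast, Nat.abs_cast]
    rw [h6, h10]
    exact mul_le_mul_of_nonneg_right h8 (Nat.cast_nonneg _)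
  have hr' : (1 : ℝ) ≤ r := by exact_mod_cast hr
  have he' : (0 : ℝ) < e := by exact_mod_cast Nat.pos_of_ne_zero he
  have hrR : (0 : ℝ) ≤ 1 - 1 / (r : ℝ) := by
    rw [sub_nonneg, div_le_one (by linarith)]
    exact hr'
  have hexp : (M : ℝ) / e ≤ 1 - 1 / (r : ℝ) := by
    have h6 : (r : ℝ) * M + e ≤ r * e := by exact_mod_cast hdegj
    rw [div_le_iff₀ he']
    have h7 : (1 - 1 / (r : ℝ)) * e = (r * e - e) / r := by
      field_simp
    rw [h7, le_div_iff₀ (by linarith)]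
    linarith
  have hpow : Ht (T j n) ^ M ≤ Real.exp (ε / 3 * L n) * Ht (Z n) ^ (1 - 1 / (r : ℝ)) := by
    have h6 : Ht (T j n) ^ M = (Ht (T j n) ^ e) ^ ((M : ℝ) / e) := by
      rw [← Real.rpow_natCast (Ht (T j n)) e, ← Real.rpow_mul (by linarith), mul_div_cancel₀,
        Real.rpow_natCast]
      exact he'.ne'
    have h7 : (1 : ℝ) ≤ Ht (T j n) ^ e := one_le_pow₀ hH1
    have h8 : (1 : ℝ) ≤ Real.exp (ε / 3 * L n) := Real.one_le_exp (by positivity)
    calc Ht (T j n) ^ M = (Ht (T j n) ^ e) ^ ((M : ℝ) / e) := h6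
      _ ≤ (Ht (T j n) ^ e) ^ (1 - 1 / (r : ℝ)) := Real.rpow_le_rpow_of_exponent_le h7 hexp
      _ ≤ (Real.exp (ε / 3 * L n) * Ht (Z n)) ^ (1 - 1 / (r : ℝ)) :=
          Real.rpow_le_rpow (by linarith) h3 hrR
      _ = Real.exp (ε / 3 * L n) ^ (1 - 1 / (r : ℝ)) * Ht (Z n) ^ (1 - 1 / (r : ℝ)) :=
          Real.mul_rpow (Real.exp_pos _).le (by linarith)
      _ ≤ Real.exp (ε / 3 * L n) ^ (1 : ℝ) * Ht (Z n) ^ (1 - 1 / (r : ℝ)) := by
          refine mul_le_mul_of_nonneg_right ?_ (by positivity)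
          refine Real.rpow_le_rpow_of_exponent_le h8 ?_
          have : (0 : ℝ) < 1 / (r : ℝ) := by positivity
          linarith
      _ = _ := by rw [Real.rpow_one]
  calc (D n : ℝ) ≤ |((α n).num : ℝ)| * |((D' n : ℤ) : ℝ)| := hDle
    _ ≤ (Real.exp (ε / 3 * L n) * Ht (T j n) ^ M) * Real.exp (ε / 3 * L n) :=
        mul_le_mul h2 h1 (abs_nonneg _) (by positivity)
    _ ≤ (Real.exp (ε / 3 * L n) * (Real.exp (ε / 3 * L n) * Ht (Z n) ^ (1 - 1 / (r : ℝ)))) *
        Real.exp (ε / 3 * L n) := by gcongr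
    _ = Real.exp (ε * L n) * Ht (Z n) ^ (1 - 1 / (r : ℝ)) := by
        have h6 : Real.exp (ε * L n) = Real.exp (ε / 3 * L n) * Real.exp (ε / 3 * L n) *
            Real.exp (ε / 3 * L n) := by
          rw [← Real.exp_add, ← Real.exp_add]
          ring_nf
        rw [h6]
        ring

end Pool.Agent.H556.GD
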